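import Pool.Agent.Q229.TDS.Defs

/-!
# Total domination and sub-total domination: basic facts
-/

set_option autoImplicit false

namespace Q229.TDS

theorem sorted_take_sum (l : List ℕ) (h : l.Pairwise (· ≥ ·)) :
    ∀ s : List ℕ, s.Sublist l → s.sum ≤ (l.take s.length).sum := by
  induction l with
  | nil =>
    intro s hs
    simp [List.sublist_nil.1 hs]
  | cons a l ih =>
    intro s hs
    rw [List.pairwise_cons] at h
    cases hs with
    | cons _ hs =>
      cases s with
      | nil => simp
      | cons b s =>
        have h1 : (b :: s).sum ≤ (l.take (s.length + 1)).sum := ih h.2 _ hs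
        have hb : b ∈ l := hs.subset (by simp)
        have h2 : s.sum ≤ (l.take s.length).sum := ih h.2 s ((List.sublist_cons_self b s).trans hs)
        have h3 := h.1 b hb
        simp only [List.length_cons, List.take_succ_cons, List.sum_cons]
        omega
    | cons_cons _ hs =>
      rename_i s
      have h1 := ih h.2 s hs
      simp only [List.length_cons, List.take_succ_cons, List.sum_cons]
      omega

variable {V : Type} [Fintype V] (G : SimpleGraph V)

open Classical in
/-- The vertices in an order of non-increasing degrees. -/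
theorem exists_order : ∃ l : List V, l.Nodup ∧ (∀ v, v ∈ l) ∧
    l.map (fun v => G.degree v) = degreeSeq G := by
  refine ⟨(Finset.univ : Finset V).toList.insertionSort (fun a b => G.degree a ≥ G.degree b),
    ?_, ?_, ?_⟩
  · exact (List.perm_insertionSort _ _).nodup_iff.2 (Finset.nodup_toList _)
  · intro v
    rw [List.mem_insertionSort]
    simp
  · have hsort : (degreeSeq G).Pairwise (· ≥ ·) := by
      unfold degreeSeq
      exact Multiset.pairwise_sort _ _
    have h1 : (((Finset.univ : Finset V).toList.insertionSort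
        (fun a b => G.degree a ≥ G.degree b)).map fun v => G.degree v).Pairwise (· ≥ ·) := by
      rw [List.pairwise_map]
      have : Std.Total (fun a b => G.degree a ≥ G.degree b) := ⟨fun a b => by
        rcases le_total (G.degree a) (G.degree b) with h | h
        · exact Or.inr h
        · exact Or.inl h⟩
      have : IsTrans V (fun a b => G.degree a ≥ G.degree b) := ⟨fun a b c h1 h2 => by
        exact le_trans h2 h1⟩
      exact List.pairwise_insertionSort _ _
    refine List.Perm.eq_of_pairwise' h1 hsort ?_
    rw [← Multiset.coe_eq_coe]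
    unfold degreeSeq
    rw [Multiset.sort_eq, ← Multiset.map_coe]
    congr 1
    rw [Multiset.coe_eq_coe.2 (List.perm_insertionSort _ _)]
    simp

open Classical in
theorem take_sum_iff (n k : ℕ) :
    n ≤ ((degreeSeq G).take k).sum ↔ ∃ S : Finset V, S.card ≤ k ∧ n ≤ ∑ v ∈ S, G.degree v := by
  obtain ⟨l, hnd, hmem, hl⟩ := exists_order G
  have hsort : (degreeSeq G).Pairwise (· ≥ ·) := by
    unfold degreeSeq
    exact Multiset.pairwise_sort _ _
  constructor
  · intro h
    refine ⟨(l.take k).toFinset, ?_, ?_⟩
    · refine (List.toFinset_card_le _).trans ?_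
      simp
    · rw [List.sum_toFinset _ (hnd.sublist (List.take_sublist _ _)), List.map_take, hl]
      exact h
  · rintro ⟨S, hS, hn⟩
    refine hn.trans ?_
    have h1 : (l.filter (fun v => decide (v ∈ S))).toFinset = S := by
      ext v
      simp [hmem v]
    have h2 : (l.filter (fun v => decide (v ∈ S))).Nodup := hnd.filter _
    have h3 : ∑ v ∈ S, G.degree v =
        ((l.filter (fun v => decide (v ∈ S))).map fun v => G.degree v).sum := by
      conv_lhs => rw [← h1]
      rw [List.sum_toFinset _ h2]
    have h4 := sorted_take_sum _ hsort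
      ((l.filter (fun v => decide (v ∈ S))).map fun v => G.degree v)
      (by rw [← hl]; exact List.Sublist.map _ List.filter_sublist)
    rw [h3]
    refine h4.trans ?_
    have h5 : ((l.filter (fun v => decide (v ∈ S))).map fun v => G.degree v).length ≤ k := by
      rw [List.length_map, ← List.toFinset_card_of_nodup h2, h1]
      exact hS
    exact List.Sublist.sum_le_sum (List.take_sublist_take_left h5) (by simp)

open Classical in
theorem subT_le_iff (hG : ∀ v, ∃ u, G.Adj v u) (k : ℕ) :
    subT G ≤ k ↔ ∃ S : Finset V, S.card ≤ k ∧ Fintype.card V ≤ ∑ v ∈ S, G.degree v := by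
  rw [← take_sum_iff]
  have hne : {k | Fintype.card V ≤ ((degreeSeq G).take k).sum}.Nonempty := by
    refine ⟨Fintype.card V, ?_⟩
    rw [Set.mem_ofPred_eq, take_sum_iff]
    refine ⟨Finset.univ, by simp, ?_⟩
    calc Fintype.card V = ∑ v : V, 1 := by simp
      _ ≤ ∑ v : V, G.degree v := by
        refine Finset.sum_le_sum fun v _ => ?_
        obtain ⟨u, hu⟩ := hG v
        exact (G.degree_pos_iff_exists_adj v).2 ⟨u, hu⟩
  constructor
  · intro h
    have h1 := Nat.sInf_mem hne
    rw [Set.mem_ofPred_eq] at h1
    exact h1.trans (List.Sublist.sum_le_sum (List.take_sublist_take_left h) (by simp))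
  · intro h
    exact Nat.sInf_le h

open Classical in
theorem gammaT_le_iff (hG : ∀ v, ∃ u, G.Adj v u) (k : ℕ) :
    gammaT G ≤ k ↔ ∃ S : Finset V, S.card ≤ k ∧ TotalDominating G S := by
  have hne : {k | ∃ S : Finset V, S.card = k ∧ TotalDominating G S}.Nonempty := by
    refine ⟨_, Finset.univ, rfl, ?_⟩
    intro v
    obtain ⟨u, hu⟩ := hG v
    exact ⟨u, Finset.mem_univ _, hu⟩
  constructor
  · intro h
    obtain ⟨S, hS, hd⟩ := Nat.sInf_mem hne
    exact ⟨S, hS.le.trans h, hd⟩
  · rintro ⟨S, hS, hd⟩
    exact le_trans (Nat.sInf_le (show S.card ∈ {k | ∃ S : Finset V, S.card = k ∧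
      TotalDominating G S} from ⟨S, rfl, hd⟩)) hS

open Classical in
theorem card_le_of_totalDominating {S : Finset V} (h : TotalDominating G S) :
    Fintype.card V ≤ ∑ v ∈ S, G.degree v := by
  have h1 : (Finset.univ : Finset V) ⊆ S.biUnion fun v => G.neighborFinset v := by
    intro v _
    obtain ⟨u, hu, huv⟩ := h v
    rw [Finset.mem_biUnion]
    exact ⟨u, hu, by rw [SimpleGraph.mem_neighborFinset]; exact huv.symm⟩
  calc Fintype.card V = (Finset.univ : Finset V).card := rfl
    _ ≤ (S.biUnion fun v => G.neighborFinset v).card := Finset.card_le_card h1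
    _ ≤ ∑ v ∈ S, (G.neighborFinset v).card := Finset.card_biUnion_le
    _ = ∑ v ∈ S, G.degree v := rfl

theorem subT_le_gammaT (hG : ∀ v, ∃ u, G.Adj v u) : subT G ≤ gammaT G := by
  classical
  rw [subT_le_iff G hG]
  obtain ⟨S, hS, hd⟩ := (gammaT_le_iff G hG _).1 le_rfl
  exact ⟨S, hS, card_le_of_totalDominating G hd⟩

theorem gammaT_iso {V W : Type} {G : SimpleGraph V} {H : SimpleGraph W} (e : G ≃g H) :
    gammaT G = gammaT H := by
  unfold gammaT
  congr 1
  ext k
  simp only [Set.mem_ofPred_eq]
  constructor
  · rintro ⟨S, hS, hd⟩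
    refine ⟨S.map e.toEquiv.toEmbedding, by rw [Finset.card_map, hS], ?_⟩
    intro v
    obtain ⟨u, hu, huv⟩ := hd (e.symm v)
    refine ⟨e u, Finset.mem_map.2 ⟨u, hu, rfl⟩, ?_⟩
    have := e.map_adj_iff.2 huv
    rwa [RelIso.apply_symm_apply] at this
  · rintro ⟨S, hS, hd⟩
    refine ⟨S.map e.symm.toEquiv.toEmbedding, by rw [Finset.card_map, hS], ?_⟩
    intro v
    obtain ⟨u, hu, huv⟩ := hd (e v)
    refine ⟨e.symm u, Finset.mem_map.2 ⟨u, hu, rfl⟩, ?_⟩
    have := e.symm.map_adj_iff.2 huv
    rwa [RelIso.symm_apply_apply] at this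

theorem degreeSeq_iso {V W : Type} [Fintype V] [Fintype W] {G : SimpleGraph V}
    {H : SimpleGraph W} (e : G ≃g H) : degreeSeq G = degreeSeq H := by
  classical
  unfold degreeSeq
  congr 1
  have h1 : (Finset.univ : Finset W).val = (Finset.univ : Finset V).val.map e := by
    have := congrArg Finset.val (Finset.map_univ_equiv e.toEquiv)
    rw [← this]
    rfl
  rw [h1, Multiset.map_map]
  refine Multiset.map_congr rfl fun v _ => ?_
  simp only [Function.comp_apply]
  exact (SimpleGraph.Iso.degree_eq e v).symm

theorem subT_iso {V W : Type} [Fintype V] [Fintype W] {G : SimpleGraph V}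
    {H : SimpleGraph W} (e : G ≃g H) : subT G = subT H := by
  unfold subT
  rw [degreeSeq_iso e, Fintype.card_congr e.toEquiv]

end Q229.TDS
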