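import Pool.Agent.H622R2.MatGraph
import Pool.Agent.NPC.Defs

/-!
# Total domination and sub-total domination: definitions
-/

set_option autoImplicit false

namespace Q229.TDS

open Pool.Agent.H622R2

/-- `S` is a total dominating set of `G`: every vertex of `G` (also those in `S`) has a neighbour
in `S`. -/
def TotalDominating {V : Type} (G : SimpleGraph V) (S : Finset V) : Prop :=
  ∀ v, ∃ u ∈ S, G.Adj v u

/-- The total domination number: the least size of a total dominating set. -/
noncomputable def gammaT {V : Type} (G : SimpleGraph V) : ℕ :=
  sInf {k | ∃ S : Finset V, S.card = k ∧ TotalDominating G S}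

open Classical in
/-- The degree sequence `d₁ ≥ d₂ ≥ … ≥ dₙ` in non-increasing order. -/
noncomputable def degreeSeq {V : Type} [Fintype V] (G : SimpleGraph V) : List ℕ :=
  (Finset.univ.val.map fun v => G.degree v).sort (· ≥ ·)

/-- The sub-total domination number: the least `k` with `d₁ + … + dₖ ≥ n`. -/
noncomputable def subT {V : Type} [Fintype V] (G : SimpleGraph V) : ℕ :=
  sInf {k | Fintype.card V ≤ ((degreeSeq G).take k).sum}

/-- The decision problem TDS-EQ: given (the adjacency matrix `M` of) a graph without isolated
vertices, is its total domination number equal to its sub-total domination number? -/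
def TDSEQ (M : List (List Bool)) : Prop :=
  (∀ v, ∃ u, (matGraph M).Adj v u) ∧ gammaT (matGraph M) = subT (matGraph M)

end Q229.TDS
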