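import Pool.Agent.Q229.TDS.Basic
import Pool.Agent.Q229.Base

/-!
# TDS-EQ is in NP
-/

set_option autoImplicit false

namespace Q229.TDS

open Pool.Agent.NPC Pool.Agent.H622R2

/-- the degree of the vertex `i` -/
def degL (M : List (List Bool)) (i : ℕ) : ℕ :=
  ((List.range M.length).filter fun j => adjT M i j).length

open Classical in
theorem degL_eq (M : List (List Bool)) (i : Fin M.length) :
    degL M i = (matGraph M).degree i := by
  unfold degL
  rw [← SimpleGraph.card_neighborFinset_eq_degree, ← List.toFinset_card_of_nodup
    (List.nodup_range.filter _), ← Finset.card_map Fin.valEmbedding]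
  congr 1
  ext x
  simp only [List.toFinset_filter, Finset.mem_filter, List.mem_toFinset, List.mem_range,
    Finset.mem_map, SimpleGraph.mem_neighborFinset, Fin.valEmbedding_apply]
  constructor
  · rintro ⟨h1, h2⟩
    exact ⟨⟨x, h1⟩, (adjT_iff M i ⟨x, h1⟩).1 h2, rfl⟩
  · rintro ⟨y, hy, rfl⟩
    exact ⟨y.2, (adjT_iff M i y).2 hy⟩

/-- the test of a certificate -/
def certT (x : List (List Bool) × (List ℕ × ℕ)) : Bool :=
  ((List.range x.1.length).all fun i => x.2.1.any fun j =>
    decide (j < x.1.length) && adjT x.1 i j) &&
  (x.2.1.isEmpty || decide ((x.2.1.length - 1) * x.2.2 +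
    ((List.range x.1.length).map fun i => degL x.1 i - x.2.2).sum < x.1.length))

theorem degL_poly {α : Type} [TEnc α] {M : α → List (List Bool)} {i : α → ℕ} (hM : Poly M)
    (hi : Poly i) : Poly (fun a => degL (M a) (i a)) := by
  unfold degL
  exact Poly.length (Poly.filter (p := fun a j => adjT (M a) (i a) j) (Poly.range_length hM)
    (adjT_poly (hM.comp (Poly.fst Poly.id)) (hi.comp (Poly.fst Poly.id)) (Poly.snd Poly.id)))

theorem certT_poly : Poly certT := by
  have h1 : Poly (fun x : List (List Bool) × (List ℕ × ℕ) => x.1) := Poly.fst Poly.id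
  have h2 : Poly (fun x : List (List Bool) × (List ℕ × ℕ) => x.2.1) := Poly.fst (Poly.snd Poly.id)
  have h3 : Poly (fun x : List (List Bool) × (List ℕ × ℕ) => x.2.2) := Poly.snd (Poly.snd Poly.id)
  have h4 : Poly (fun p : (List (List Bool) × (List ℕ × ℕ)) × ℕ =>
      p.1.2.1.any fun j => decide (j < p.1.1.length) && adjT p.1.1 p.2 j) := by
    refine Poly.any (p := fun (p : (List (List Bool) × (List ℕ × ℕ)) × ℕ) j =>
      decide (j < p.1.1.length) && adjT p.1.1 p.2 j) (h2.comp (Poly.fst Poly.id)) ?_
    exact Poly.and (Poly.decide_lt (Poly.snd Poly.id)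
      (Poly.length (h1.comp (Poly.fst (Poly.fst Poly.id))))) (adjT_poly
      (h1.comp (Poly.fst (Poly.fst Poly.id))) (Poly.snd (Poly.fst Poly.id)) (Poly.snd Poly.id))
  have h5 : Poly (fun x : List (List Bool) × (List ℕ × ℕ) => (List.range x.1.length).all fun i =>
      x.2.1.any fun j => decide (j < x.1.length) && adjT x.1 i j) :=
    Poly.all (p := fun (x : List (List Bool) × (List ℕ × ℕ)) i => x.2.1.any fun j =>
      decide (j < x.1.length) && adjT x.1 i j) (Poly.range_length h1) h4
  have h6 : Poly (fun x : List (List Bool) × (List ℕ × ℕ) =>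
      ((List.range x.1.length).map fun i => degL x.1 i - x.2.2).sum) :=
    Poly.sum (pmap (F := fun (x : List (List Bool) × (List ℕ × ℕ)) i => degL x.1 i - x.2.2)
      (Poly.range_length h1) (psub (degL_poly (h1.comp (Poly.fst Poly.id)) (Poly.snd Poly.id))
      (h3.comp (Poly.fst Poly.id))))
  have h7 : Poly (fun x : List (List Bool) × (List ℕ × ℕ) => (x.2.1.length - 1) * x.2.2 +
      ((List.range x.1.length).map fun i => degL x.1 i - x.2.2).sum) :=
    padd (pmul (psub (Poly.length h2) (pc 1)) h3) h6
  exact Poly.and h5 (Poly.or (Poly.isEmpty h2) (Poly.decide_lt h7 (Poly.length h1)))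

theorem sum_range_eq (M : List (List Bool)) (f : ℕ → ℕ) :
    ((List.range M.length).map f).sum = ∑ i : Fin M.length, f i := by
  rw [← Fin.sum_ofFn]
  congr 1
  apply List.ext_getElem <;> simp

theorem sorted_threshold (l : List ℕ) (h : l.Pairwise (· ≥ ·)) (j : ℕ) (hj : j < l.length) :
    j * l[j] + (l.map fun d => d - l[j]).sum = (l.take j).sum := by
  have h1 : ∀ i (hi : i < l.length), i < j → l[j] ≤ l[i] := by
    intro i hi hij
    exact (List.pairwise_iff_getElem.1 h) i j hi hj hij
  have h2 : ∀ x ∈ l.drop j, x - l[j] = 0 := by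
    intro x hx
    obtain ⟨i, hi, rfl⟩ := List.getElem_of_mem hx
    rw [List.getElem_drop]
    rcases Nat.eq_zero_or_pos i with rfl | h0
    · simp
    · have hi' : j + i < l.length := by
        rw [List.length_drop] at hi
        omega
      have := (List.pairwise_iff_getElem.1 h) j (j + i) hj hi' (by omega)
      omega
  have h3 : ((l.take j).map fun d => d - l[j]).sum + j * l[j] = (l.take j).sum := by
    have h4 : ∀ x ∈ l.take j, l[j] ≤ x := by
      intro x hx
      obtain ⟨i, hi, rfl⟩ := List.getElem_of_mem hx
      rw [List.getElem_take]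
      rw [List.length_take] at hi
      exact h1 i (by omega) (by omega)
    have h5 : ∀ (c : ℕ) (m : List ℕ), (∀ x ∈ m, c ≤ x) →
        (m.map fun d => d - c).sum + m.length * c = m.sum := by
      intro c m
      induction m with
      | nil => simp
      | cons a m ih =>
        intro hm
        have h6 := ih fun x hx => hm x (by simp [hx])
        have h7 := hm a (by simp)
        simp only [List.map_cons, List.sum_cons, List.length_cons]
        nlinarith [Nat.sub_add_cancel h7]
    have h6 := h5 _ _ h4
    rwa [List.length_take, min_eq_left hj.le] at h6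
  have h7 : ((l.drop j).map fun d => d - l[j]).sum = 0 := by
    rw [List.sum_eq_zero_iff]
    intro x hx
    obtain ⟨y, hy, rfl⟩ := List.mem_map.1 hx
    exact h2 y hy
  have h8 : (l.map fun d => d - l[j]).sum =
      ((l.take j).map fun d => d - l[j]).sum + ((l.drop j).map fun d => d - l[j]).sum := by
    rw [← List.sum_append, ← List.map_append, List.take_append_drop]
  omega

theorem cert_iff (M : List (List Bool)) : TDSEQ M ↔ ∃ w : List ℕ × ℕ,
    sz w ≤ (Polynomial.X * (Polynomial.C 4 * Polynomial.X + Polynomial.C 2) +
      Polynomial.C 4 * Polynomial.X + Polynomial.C 10 : Polynomial ℕ).eval (sz M) ∧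
    certT (M, w) = true := by
  classical
  have hn : M.length < sz M := length_lt_sz M
  simp only [Polynomial.eval_add, Polynomial.eval_mul, Polynomial.eval_C, Polynomial.eval_X]
  constructor
  · rintro ⟨hG, he⟩
    obtain ⟨S, hS, hd⟩ := (gammaT_le_iff _ hG _).1 le_rfl
    obtain ⟨l, hnd, hmem, hl⟩ := exists_order (matGraph M)
    have hlen : l.length = M.length := by
      have h1 : l.toFinset = Finset.univ := by ext v; simp [hmem v]
      have h2 := congrArg Finset.card h1
      rw [List.toFinset_card_of_nodup hnd] at h2
      simpa using h2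
    -- the threshold
    have hτ : ∃ τ : ℕ, τ ≤ M.length ∧ (S.card = 0 ∨ (S.card - 1) * τ +
        ((List.range M.length).map fun i => degL M i - τ).sum < M.length) := by
      by_cases h0 : S.card = 0
      · exact ⟨0, Nat.zero_le _, Or.inl h0⟩
      have hSn : S.card ≤ M.length := by
        have := S.card_le_univ
        simpa using this
      have hsort : (degreeSeq (matGraph M)).Pairwise (· ≥ ·) := by
        unfold degreeSeq
        exact Multiset.pairwise_sort _ _
      have hdl : (degreeSeq (matGraph M)).length = M.length := by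
        rw [← hl, List.length_map, hlen]
      have hj : S.card - 1 < (degreeSeq (matGraph M)).length := by omega
      refine ⟨(degreeSeq (matGraph M))[S.card - 1], ?_, Or.inr ?_⟩
      · have h1 := List.getElem_mem hj
        generalize (degreeSeq (matGraph M))[S.card - 1] = τ at h1
        rw [← hl] at h1
        obtain ⟨v, _, rfl⟩ := List.mem_map.1 h1
        have h3 := (matGraph M).degree_lt_card_verts v
        rw [Fintype.card_fin] at h3
        exact h3.le
      · have h1 := sorted_threshold _ hsort _ hj
        set τ := (degreeSeq (matGraph M))[S.card - 1] with hτ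
        have h2 : ((List.range M.length).map fun i => degL M i - τ).sum =
            ((degreeSeq (matGraph M)).map fun d => d - τ).sum := by
          rw [← hl, List.map_map, sum_range_eq, ← List.sum_toFinset _ hnd]
          have h3 : l.toFinset = Finset.univ := by ext v; simp [hmem v]
          rw [h3]
          refine Finset.sum_congr rfl fun v _ => ?_
          simp only [Function.comp_apply]
          rw [degL_eq]
        rw [h2, h1]
        by_contra hcon
        push Not at hcon
        have h3 : subT (matGraph M) ≤ S.card - 1 := by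
          rw [subT_le_iff _ hG, ← take_sum_iff, Fintype.card_fin]
          exact hcon
        omega
    obtain ⟨τ, hτn, hτ⟩ := hτ
    refine ⟨(S.toList.map fun v => v.1, τ), ?_, ?_⟩
    · have h1 := sz_list_lt M.length (S.toList.map fun v => v.1) (by
        intro x hx
        obtain ⟨v, _, rfl⟩ := List.mem_map.1 hx
        exact v.2) (by
        have := S.card_le_univ
        simpa using this)
      have h2 := sz_nat_le τ
      have h3 := Poly.size_le_self τ
      rw [sz_pair]
      nlinarith
    · unfold certT
      simp only [Bool.and_eq_true, List.all_eq_true, List.mem_range, List.any_eq_true,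
        decide_eq_true_eq, Bool.or_eq_true, List.length_map, Finset.length_toList]
      refine ⟨fun i hi => ?_, ?_⟩
      · obtain ⟨u, hu, huv⟩ := hd ⟨i, hi⟩
        exact ⟨u, List.mem_map.2 ⟨u, Finset.mem_toList.2 hu, rfl⟩, u.2,
          (adjT_iff M ⟨i, hi⟩ u).2 huv⟩
      · rcases hτ with h | h
        · left
          rw [Finset.card_eq_zero] at h
          simp [h]
        · exact Or.inr h
  · rintro ⟨⟨s, τ⟩, -, h⟩
    unfold certT at h
    simp only [Bool.and_eq_true, List.all_eq_true, List.mem_range, List.any_eq_true,
        decide_eq_true_eq, Bool.or_eq_true] at h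
    obtain ⟨h1, h2⟩ := h
    have hG : ∀ v, ∃ u, (matGraph M).Adj v u := by
      intro v
      obtain ⟨j, _, hj, hadj⟩ := h1 v.1 v.2
      exact ⟨⟨j, hj⟩, (adjT_iff M v ⟨j, hj⟩).1 hadj⟩
    refine ⟨hG, le_antisymm ?_ (subT_le_gammaT _ hG)⟩
    have h3 : gammaT (matGraph M) ≤ s.length := by
      rw [gammaT_le_iff _ hG]
      refine ⟨Finset.univ.filter fun v : Fin M.length => v.1 ∈ s, ?_, ?_⟩
      · rw [← Finset.card_map Fin.valEmbedding]
        refine (Finset.card_le_card (t := s.toFinset) ?_).trans (List.toFinset_card_le _)
        intro x hx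
        simp only [Finset.mem_map, Finset.mem_filter, Finset.mem_univ, true_and] at hx
        obtain ⟨v, hv, rfl⟩ := hx
        exact List.mem_toFinset.2 hv
      · intro v
        obtain ⟨j, hjs, hj, hadj⟩ := h1 v.1 v.2
        exact ⟨⟨j, hj⟩, by simpa using hjs, (adjT_iff M v ⟨j, hj⟩).1 hadj⟩
    refine h3.trans ?_
    rcases h2 with h2 | h2
    · rw [List.isEmpty_iff] at h2
      simp [h2]
    · by_contra hcon
      push Not at hcon
      obtain ⟨T, hT, hTn⟩ := (subT_le_iff _ hG (s.length - 1)).1 (by omega)
      rw [Fintype.card_fin] at hTn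
      have h4 : ∑ v ∈ T, (matGraph M).degree v ≤ (s.length - 1) * τ +
          ((List.range M.length).map fun i => degL M i - τ).sum := by
        rw [sum_range_eq]
        calc ∑ v ∈ T, (matGraph M).degree v
            ≤ ∑ v ∈ T, (τ + (degL M v - τ)) := by
              refine Finset.sum_le_sum fun v _ => ?_
              rw [degL_eq]
              omega
          _ = T.card * τ + ∑ v ∈ T, (degL M v - τ) := by
              rw [Finset.sum_add_distrib, Finset.sum_const, smul_eq_mul]
          _ ≤ _ := add_le_add (Nat.mul_le_mul_right _ hT)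
              (Finset.sum_le_sum_of_subset (Finset.subset_univ T))
      omega

theorem inNPP : InNPP TDSEQ := inNPP_of certT_poly _ cert_iff

end Q229.TDS
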