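import Pool.Agent.Q229.TDS.Basic
import Pool.Agent.Q229.X3

/-!
# TDS-EQ is NP-hard: the reduction from exact cover by 3-sets
-/

set_option autoImplicit false

namespace Q229.TDS

open Pool.Agent.NPC Pool.Agent.NPC.H632 Pool.Agent.H622R2

/-- labels of vertices -/
abbrev Lab : Type := ℕ × ℕ × ℕ

/-- Adjacency, in one direction: a slot `(0, i, 0)` is joined to its leaves `(1, i, l)` and to its
pairs `(2, i, t)`, and a pair `(2, i, t)` to the copies `(3, u, j)` of the elements `u` of the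
triple number `t`. -/
def adjL (S : List (ℕ × ℕ × ℕ)) (x y : Lab) : Bool :=
  (decide (x.1 = 0) && decide (y.1 = 1) && decide (x.2.1 = y.2.1)) ||
  ((decide (x.1 = 0) && decide (y.1 = 2) && decide (x.2.1 = y.2.1)) ||
  (decide (x.1 = 2) && decide (y.1 = 3) && decide (y.2.1 ∈ el (S.getD x.2.2 (0, 0, 0)))))

/-- The vertices: slots, leaves, pairs, copies. -/
abbrev Vt (q m : ℕ) : Type :=
  Fin q ⊕ ((Fin q × Fin (3 * (q * m) + 1)) ⊕ ((Fin q × Fin m) ⊕ (Fin (3 * q) × Fin (q * m))))

/-- The label of a vertex. -/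
def lab (q m : ℕ) : Vt q m → Lab
  | Sum.inl i => (0, i, 0)
  | Sum.inr (Sum.inl p) => (1, p.1, p.2)
  | Sum.inr (Sum.inr (Sum.inl p)) => (2, p.1, p.2)
  | Sum.inr (Sum.inr (Sum.inr p)) => (3, p.1, p.2)

theorem lab_injective (q m : ℕ) : Function.Injective (lab q m) := by
  rintro (i | ⟨i, l⟩ | ⟨i, t⟩ | ⟨u, j⟩) (i' | ⟨i', l'⟩ | ⟨i', t'⟩ | ⟨u', j'⟩) h <;>
    simp only [lab, Prod.mk.injEq, false_and, zero_ne_one, one_ne_zero,
      OfNat.ofNat_ne_zero, OfNat.zero_ne_ofNat, OfNat.ofNat_ne_one, OfNat.one_ne_ofNat,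
      Nat.reduceEqDiff, true_and, and_true] at h
  · rw [Fin.ext h]
  · rw [Fin.ext h.1, Fin.ext h.2]
  · rw [Fin.ext h.1, Fin.ext h.2]
  · rw [Fin.ext h.1, Fin.ext h.2]

theorem adjL_irrefl (S : List (ℕ × ℕ × ℕ)) (x : Lab) : adjL S x x = false := by
  unfold adjL
  rcases x with ⟨a, b, c⟩
  by_cases h0 : a = 0
  · subst h0; simp
  · by_cases h2 : a = 2
    · subst h2; simp
    · simp [h0, h2]

/-- The graph. -/
def Gr (S : List (ℕ × ℕ × ℕ)) (q : ℕ) : SimpleGraph (Vt q S.length) where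
  Adj x y := adjL S (lab _ _ x) (lab _ _ y) = true ∨ adjL S (lab _ _ y) (lab _ _ x) = true
  symm := ⟨fun _ _ h => h.symm⟩
  loopless := ⟨fun x h => by simp [adjL_irrefl] at h⟩

variable (S : List (ℕ × ℕ × ℕ)) (q : ℕ)

/-- slot -/
abbrev sl {q m : ℕ} (i : Fin q) : Vt q m := Sum.inl i
/-- leaf -/
abbrev lf {q m : ℕ} (i : Fin q) (l : Fin (3 * (q * m) + 1)) : Vt q m := Sum.inr (Sum.inl (i, l))
/-- pair -/
abbrev pr {q m : ℕ} (i : Fin q) (t : Fin m) : Vt q m := Sum.inr (Sum.inr (Sum.inl (i, t)))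
/-- copy -/
abbrev cp {q m : ℕ} (u : Fin (3 * q)) (j : Fin (q * m)) : Vt q m :=
  Sum.inr (Sum.inr (Sum.inr (u, j)))

theorem ss (i i' : Fin q) : ¬ (Gr S q).Adj (sl i) (sl i') := by simp [Gr, adjL, lab]
theorem sL (i i' l) : (Gr S q).Adj (sl i) (lf i' l) ↔ i = i' := by
  simp only [Gr, adjL, lab, Fin.ext_iff]; simp [-decide_eq_true_eq]; exact decide_eq_true_iff
theorem sP (i i' t) : (Gr S q).Adj (sl i) (pr i' t) ↔ i = i' := by
  simp only [Gr, adjL, lab, Fin.ext_iff]; simp [-decide_eq_true_eq]; exact decide_eq_true_iff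
theorem sC (i u j) : ¬ (Gr S q).Adj (sl i) (cp u j) := by simp [Gr, adjL, lab]
theorem LL (i l i' l') : ¬ (Gr S q).Adj (lf i l) (lf i' l') := by simp [Gr, adjL, lab]
theorem LP (i l i' t') : ¬ (Gr S q).Adj (lf i l) (pr i' t') := by simp [Gr, adjL, lab]
theorem LC (i l u j) : ¬ (Gr S q).Adj (lf i l) (cp u j) := by simp [Gr, adjL, lab]
theorem PP (i t i' t') : ¬ (Gr S q).Adj (pr i t) (pr i' t') := by simp [Gr, adjL, lab]
theorem PC (i t u j) : (Gr S q).Adj (pr i t) (cp u j) ↔ u.1 ∈ el S[t] := by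
  simp [Gr, adjL, lab]
theorem CC (u j u' j') : ¬ (Gr S q).Adj (cp u j) (cp u' j') := by simp [Gr, adjL, lab]
theorem Ls (i l i') : (Gr S q).Adj (lf i l) (sl i') ↔ i' = i := by rw [(Gr S q).adj_comm, sL]
theorem Ps (i t i') : (Gr S q).Adj (pr i t) (sl i') ↔ i' = i := by rw [(Gr S q).adj_comm, sP]
theorem Cs (u j i) : ¬ (Gr S q).Adj (cp u j) (sl i) := by rw [(Gr S q).adj_comm]; exact sC S q _ _ _
theorem PL (i t i' l') : ¬ (Gr S q).Adj (pr i t) (lf i' l') := by
  rw [(Gr S q).adj_comm]; exact LP S q _ _ _ _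
theorem CL (u j i l) : ¬ (Gr S q).Adj (cp u j) (lf i l) := by
  rw [(Gr S q).adj_comm]; exact LC S q _ _ _ _
theorem CP (u j i t) : (Gr S q).Adj (cp u j) (pr i t) ↔ u.1 ∈ el S[t] := by
  rw [(Gr S q).adj_comm, PC]

open Classical in
theorem deg_eq (v : Vt q S.length) : (Gr S q).degree v = ∑ w, if (Gr S q).Adj v w then 1 else 0 := by
  rw [← SimpleGraph.card_neighborFinset_eq_degree, Finset.card_eq_sum_ones, ← Finset.sum_filter]
  refine Finset.sum_congr ?_ fun _ _ => rfl
  ext w
  simp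

open Classical in
theorem deg_sl (i : Fin q) : (Gr S q).degree (sl i) = 3 * (q * S.length) + 1 + S.length := by
  rw [deg_eq]
  simp only [Fintype.sum_sum_type, Fintype.sum_prod_type, ss, sL, sP, sC]
  simp

open Classical in
theorem deg_lf (i l) : (Gr S q).degree (lf i l) = 1 := by
  rw [deg_eq]
  simp only [Fintype.sum_sum_type, Fintype.sum_prod_type, Ls, LL, LP, LC]
  simp

theorem card_el {t : ℕ × ℕ × ℕ} (h1 : (el t).Nodup) (h2 : ∀ x ∈ el t, x < 3 * q) :
    (Finset.univ.filter fun u : Fin (3 * q) => u.1 ∈ el t).card = 3 := by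
  have h3 : (Finset.univ.filter fun u : Fin (3 * q) => u.1 ∈ el t).map Fin.valEmbedding =
      (el t).toFinset := by
    ext x
    simp only [Finset.mem_map, Finset.mem_filter, Finset.mem_univ, true_and, List.mem_toFinset]
    constructor
    · rintro ⟨u, hu, rfl⟩; exact hu
    · intro hx; exact ⟨⟨x, h2 x hx⟩, hx, rfl⟩
  rw [← Finset.card_map Fin.valEmbedding, h3, List.toFinset_card_of_nodup h1]
  rfl

open Classical in
theorem deg_pr (h : X3Ok (S, q)) (i t) :
    (Gr S q).degree (pr i t) = 3 * (q * S.length) + 1 := by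
  rw [deg_eq]
  simp only [Fintype.sum_sum_type, Fintype.sum_prod_type, Ps, PL, PP, PC]
  have h1 := card_el q (h.nodup S[t] (List.getElem_mem _)) (h.lt S[t] (List.getElem_mem _))
  rw [Finset.card_filter] at h1
  simp only [Finset.sum_ite_eq', Finset.mem_univ, if_true, if_false, Finset.sum_const_zero,
    zero_add, Finset.sum_const, smul_eq_mul, Finset.card_univ, Fintype.card_fin]
  rw [← Finset.mul_sum]
  rw [show (∑ i : Fin (3 * q), if i.1 ∈ el S[t] then 1 else 0) = 3 from h1]
  ring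

open Classical in
theorem deg_cp (u j) : (Gr S q).degree (cp u j) ≤ q * S.length := by
  rw [deg_eq]
  simp only [Fintype.sum_sum_type, Fintype.sum_prod_type, Cs, CL, CP, CC]
  simp only [if_false, Finset.sum_const_zero, zero_add, add_zero]
  calc (∑ _i : Fin q, ∑ t : Fin S.length, if u.1 ∈ el S[t] then 1 else 0)
      ≤ ∑ _i : Fin q, ∑ _t : Fin S.length, 1 := by
        refine Finset.sum_le_sum fun i _ => Finset.sum_le_sum fun t _ => ?_
        split_ifs <;> simp
    _ = q * S.length := by simp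

theorem card_Vt : Fintype.card (Vt q S.length) =
    2 * q * (3 * (q * S.length) + 1) + q * S.length := by
  simp only [Fintype.card_sum, Fintype.card_prod, Fintype.card_fin]
  ring

theorem noIso (h : X3Ok (S, q)) (v : Vt q S.length) : ∃ u, (Gr S q).Adj v u := by
  rcases v with i | ⟨i, l⟩ | ⟨i, t⟩ | ⟨u, j⟩
  · exact ⟨lf i 0, (sL S q _ _ _).2 rfl⟩
  · exact ⟨sl i, (Ls S q _ _ _).2 rfl⟩
  · exact ⟨sl i, (Ps S q _ _ _).2 rfl⟩
  · obtain ⟨t, ht, het⟩ := h.occ u.1 u.2
    obtain ⟨n, hn, rfl⟩ := List.getElem_of_mem ht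
    exact ⟨pr ⟨0, h.pos⟩ ⟨n, hn⟩, (CP S q _ _ _ _).2 het⟩

theorem subT_le (h : X3Ok (S, q)) : subT (Gr S q) ≤ 2 * q := by
  classical
  rw [subT_le_iff _ (noIso S q h)]
  have hm : 0 < S.length := lt_of_lt_of_le h.pos h.le
  refine ⟨(Finset.univ.image fun i : Fin q => (sl i : Vt q S.length)) ∪
    (Finset.univ.image fun i : Fin q => (pr i ⟨0, hm⟩ : Vt q S.length)), ?_, ?_⟩
  · refine (Finset.card_union_le _ _).trans ?_
    have h1 := Finset.card_image_le (s := (Finset.univ : Finset (Fin q)))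
      (f := fun i : Fin q => (sl i : Vt q S.length))
    have h2 := Finset.card_image_le (s := (Finset.univ : Finset (Fin q)))
      (f := fun i : Fin q => (pr i ⟨0, hm⟩ : Vt q S.length))
    simp only [Finset.card_univ, Fintype.card_fin] at h1 h2
    omega
  · rw [Finset.sum_union, Finset.sum_image, Finset.sum_image]
    · simp only [deg_sl, deg_pr S q h, Finset.sum_const, Finset.card_univ, Fintype.card_fin,
        card_Vt, smul_eq_mul]
      nlinarith
    · intro a _ b _ hab
      simpa using hab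
    · intro a _ b _ hab
      simpa using hab
    · rw [Finset.disjoint_left]
      intro x hx hx'
      simp only [Finset.mem_image, Finset.mem_univ, true_and] at hx hx'
      obtain ⟨i, rfl⟩ := hx
      obtain ⟨i', hi'⟩ := hx'
      exact absurd hi' (by simp)

/-- Is the vertex a slot? -/
def isSl {q m : ℕ} : Vt q m → Bool
  | Sum.inl _ => true
  | _ => false

theorem le_subT (h : X3Ok (S, q)) : 2 * q ≤ subT (Gr S q) := by
  classical
  by_contra hlt
  push Not at hlt
  obtain ⟨T, hT, hn⟩ := (subT_le_iff _ (noIso S q h) (2 * q - 1)).1 (by omega)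
  have h1 : ∀ v : Vt q S.length, (Gr S q).degree v ≤ (3 * (q * S.length) + 1) +
      (if isSl v = true then S.length else 0) := by
    intro v
    rcases v with i | ⟨i, l⟩ | ⟨i, t⟩ | ⟨u, j⟩
    · rw [deg_sl]; simp [isSl]
    · rw [deg_lf]; simp [isSl]
    · rw [deg_pr S q h]; omega
    · have : (Gr S q).degree (Sum.inr (Sum.inr (Sum.inr (u, j)))) ≤ q * S.length := deg_cp S q u j
      omega
  have h2 : ∑ v ∈ T, (Gr S q).degree v ≤ (2 * q - 1) * (3 * (q * S.length) + 1) + q * S.length := by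
    calc ∑ v ∈ T, (Gr S q).degree v
        ≤ ∑ v ∈ T, ((3 * (q * S.length) + 1) + (if isSl v = true then S.length else 0)) :=
          Finset.sum_le_sum fun v _ => h1 v
      _ = T.card * (3 * (q * S.length) + 1) +
          ∑ v ∈ T, (if isSl v = true then S.length else 0) := by
          rw [Finset.sum_add_distrib, Finset.sum_const, smul_eq_mul]
      _ ≤ (2 * q - 1) * (3 * (q * S.length) + 1) + q * S.length := by
          refine add_le_add (Nat.mul_le_mul_right _ hT) ?_
          refine (Finset.sum_le_sum_of_subset (Finset.subset_univ T)).trans ?_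
          simp [Fintype.sum_sum_type, isSl]
  have h3 := hn.trans h2
  rw [card_Vt] at h3
  have hq := h.pos
  obtain ⟨q', rfl⟩ : ∃ q', q = q' + 1 := ⟨q - 1, by simp only at hq; omega⟩
  have h4 : 2 * (q' + 1) - 1 = 2 * q' + 1 := by omega
  rw [h4] at h3
  nlinarith

theorem gammaT_le_iff' (h : X3Ok (S, q)) : gammaT (Gr S q) ≤ 2 * q ↔ X3C (S, q) := by
  classical
  rw [gammaT_le_iff _ (noIso S q h), x3c_iff h]
  have hm : 0 < S.length := lt_of_lt_of_le h.pos h.le
  constructor
  · rintro ⟨T, hT, hd⟩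
    -- all slots are in `T`
    have hs : ∀ i : Fin q, (sl i : Vt q S.length) ∈ T := by
      intro i
      obtain ⟨u, hu, huv⟩ := hd (lf i 0)
      rcases u with i' | ⟨i', l'⟩ | ⟨i', t'⟩ | ⟨u', j'⟩
      · rw [Ls] at huv
        subst huv
        exact hu
      · exact absurd huv (LL S q _ _ _ _)
      · exact absurd huv (LP S q _ _ _ _)
      · exact absurd huv (LC S q _ _ _ _)
    -- the pairs in `T`
    let P : Finset (Fin q × Fin S.length) := Finset.univ.filter fun p => pr p.1 p.2 ∈ T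
    have hP : P.card ≤ q := by
      have h1 : (Finset.univ.image fun i : Fin q => (sl i : Vt q S.length)) ∪
          (P.image fun p => (pr p.1 p.2 : Vt q S.length)) ⊆ T := by
        intro x hx
        rcases Finset.mem_union.1 hx with hx | hx
        · simp only [Finset.mem_image, Finset.mem_univ, true_and] at hx
          obtain ⟨i, rfl⟩ := hx
          exact hs i
        · simp only [Finset.mem_image, P, Finset.mem_filter, Finset.mem_univ, true_and] at hx
          obtain ⟨p, hp, rfl⟩ := hx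
          exact hp
      have h2 := Finset.card_le_card h1
      rw [Finset.card_union_of_disjoint, Finset.card_image_of_injective,
        Finset.card_image_of_injective] at h2
      · simp only [Finset.card_univ, Fintype.card_fin] at h2
        omega
      · intro a b hab
        simp only [Sum.inr.injEq, Sum.inl.injEq] at hab
        exact Prod.ext (congrArg Prod.fst hab) (congrArg Prod.snd hab)
      · intro a b hab
        simpa using hab
      · rw [Finset.disjoint_left]
        intro x hx hx'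
        simp only [Finset.mem_image, Finset.mem_univ, true_and] at hx hx'
        obtain ⟨i, rfl⟩ := hx
        obtain ⟨i', _, hi'⟩ := hx'
        exact absurd hi' (by simp)
    -- enumerate them
    have hcov : ∀ e < 3 * q, ∃ p ∈ P, e ∈ el S[p.2] := by
      intro e he
      have hK : 0 < q * S.length := Nat.mul_pos h.pos hm
      obtain ⟨u, hu, huv⟩ := hd (cp ⟨e, he⟩ ⟨0, hK⟩)
      rcases u with i' | ⟨i', l'⟩ | ⟨i', t'⟩ | ⟨u', j'⟩
      · exact absurd huv (Cs S q _ _ _)
      · exact absurd huv (CL S q _ _ _ _)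
      · rw [CP] at huv
        exact ⟨(i', t'), Finset.mem_filter.2 ⟨Finset.mem_univ _, hu⟩, huv⟩
      · exact absurd huv (CC S q _ _ _ _)
    obtain ⟨p0, hp0, -⟩ := hcov 0 (by have := h.pos; simp only at this; omega)
    let l := P.toList
    have hl : l.length ≤ q := by simpa [l] using hP
    refine ⟨fun i => (l.getD i.1 p0).2, fun e he => ?_⟩
    obtain ⟨p, hp, hep⟩ := hcov e he
    obtain ⟨n, hn, hn'⟩ := List.getElem_of_mem (Finset.mem_toList.2 hp)
    refine ⟨⟨n, lt_of_lt_of_le hn hl⟩, ?_⟩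
    have h5 : l.getD n p0 = p := by
      rw [List.getD_eq_getElem?_getD, List.getElem?_eq_getElem hn]
      exact hn'
    simp only [h5]
    exact hep
  · rintro ⟨f, hf⟩
    refine ⟨(Finset.univ.image fun i : Fin q => (sl i : Vt q S.length)) ∪
      (Finset.univ.image fun i : Fin q => (pr i (f i) : Vt q S.length)), ?_, ?_⟩
    · refine (Finset.card_union_le _ _).trans ?_
      have h1 := Finset.card_image_le (s := (Finset.univ : Finset (Fin q)))
        (f := fun i : Fin q => (sl i : Vt q S.length))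
      have h2 := Finset.card_image_le (s := (Finset.univ : Finset (Fin q)))
        (f := fun i : Fin q => (pr i (f i) : Vt q S.length))
      simp only [Finset.card_univ, Fintype.card_fin] at h1 h2
      omega
    · rintro (i | ⟨i, l⟩ | ⟨i, t⟩ | ⟨u, j⟩)
      · exact ⟨pr i (f i), by simp, (sP S q _ _ _).2 rfl⟩
      · exact ⟨sl i, by simp, (Ls S q _ _ _).2 rfl⟩
      · exact ⟨sl i, by simp, (Ps S q _ _ _).2 rfl⟩
      · obtain ⟨i, hi⟩ := hf u.1 u.2
        exact ⟨pr i (f i), by simp, (CP S q _ _ _ _).2 hi⟩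

theorem gr_iff (h : X3Ok (S, q)) : gammaT (Gr S q) = subT (Gr S q) ↔ X3C (S, q) := by
  have h1 := subT_le S q h
  have h2 := le_subT S q h
  have h3 := subT_le_gammaT _ (noIso S q h)
  rw [← gammaT_le_iff' S q h]
  omega

/-- The list of labels. -/
def vs (I : List (ℕ × ℕ × ℕ) × ℕ) : List Lab :=
  block 0 (min I.2 I.1.length) 1 ++
  (block 1 (min I.2 I.1.length) (3 * (min I.2 I.1.length * I.1.length) + 1) ++
  (block 2 (min I.2 I.1.length) I.1.length ++
  (block 3 (3 * min I.2 I.1.length) (min I.2 I.1.length * I.1.length) ++ [])))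

/-- The reduction. -/
def red (I : List (ℕ × ℕ × ℕ) × ℕ) : List (List Bool) := mat (vs I) (adjL I.1)

theorem red_poly : Poly red := by
  have hm : UPoly (fun I : List (ℕ × ℕ × ℕ) × ℕ => I.1.length) :=
    UPoly.length (Poly.fst Poly.id)
  have hq : UPoly (fun I : List (ℕ × ℕ × ℕ) × ℕ => min I.2 I.1.length) :=
    UPoly.of_le (Poly.min (Poly.snd Poly.id) hm.toPoly) hm (fun I => min_le_right _ _)
  have hK := hq.mul hm
  have h0 : Poly vs :=
    Poly.append (block_poly 0 hq (UPoly.const 1)) (Poly.append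
      (block_poly 1 hq (((UPoly.const 3).mul hK).add (UPoly.const 1))) (Poly.append
      (block_poly 2 hq hm) (Poly.append (block_poly 3 ((UPoly.const 3).mul hq) hK) (pc []))))
  refine mat_poly (adj := fun (I : List (ℕ × ℕ × ℕ) × ℕ) => adjL I.1) h0 ?_
  unfold adjL el
  fun_prop

theorem red_iso (h : X3Ok (S, q)) : Nonempty (matGraph (red (S, q)) ≃g Gr S q) := by
  have hq : min q S.length = q := min_eq_left h.le
  unfold red
  refine matGraph_iso _ ?_ _ _ (lab q S.length) (lab_injective _ _) ?_ ?_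
  · unfold vs
    refine block_append_nodup (block_append_nodup (block_append_nodup (block_append_nodup
      List.nodup_nil ?_) ?_) ?_) ?_
    all_goals
      intro z hz
      simp only [List.mem_append, mem_block, List.not_mem_nil, or_false] at hz <;> omega
  · intro z
    unfold vs
    simp only [hq, List.mem_append, mem_block, List.not_mem_nil, or_false]
    constructor
    · rintro (⟨h1, h2, h3⟩ | ⟨h1, h2, h3⟩ | ⟨h1, h2, h3⟩ | ⟨h1, h2, h3⟩)
      · exact ⟨sl ⟨_, h2⟩, Prod.ext h1.symm (Prod.ext rfl (by simp only [lab]; omega))⟩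
      · exact ⟨lf ⟨_, h2⟩ ⟨_, h3⟩, Prod.ext h1.symm rfl⟩
      · exact ⟨pr ⟨_, h2⟩ ⟨_, h3⟩, Prod.ext h1.symm rfl⟩
      · exact ⟨cp ⟨_, h2⟩ ⟨_, h3⟩, Prod.ext h1.symm rfl⟩
    · rintro ⟨x, rfl⟩
      rcases x with i | ⟨i, l⟩ | ⟨i, t⟩ | ⟨u, j⟩
      · exact Or.inl ⟨rfl, i.2, by simp [lab]⟩
      · exact Or.inr (Or.inl ⟨rfl, i.2, l.2⟩)
      · exact Or.inr (Or.inr (Or.inl ⟨rfl, i.2, t.2⟩))
      · exact Or.inr (Or.inr (Or.inr ⟨rfl, u.2, j.2⟩))
  · intro x y
    constructor
    · intro h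
      exact ⟨h.ne, h⟩
    · exact fun h => h.2

theorem red_iff (h : X3Ok (S, q)) : X3C (S, q) ↔ TDSEQ (red (S, q)) := by
  obtain ⟨e⟩ := red_iso S q h
  unfold TDSEQ
  rw [gammaT_iso e, subT_iso e, gr_iff S q h]
  constructor
  · intro h1
    refine ⟨fun v => ?_, h1⟩
    obtain ⟨u, hu⟩ := noIso S q h (e v)
    refine ⟨e.symm u, ?_⟩
    have := e.symm.map_adj_iff.2 hu
    rwa [RelIso.symm_apply_apply] at this
  · exact fun h => h.2

theorem hard : HardPr (fun M : List (List Bool) => ∀ v, ∃ u, (matGraph M).Adj v u) TDSEQ := by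
  refine hardPr_X3.trans red_poly ?_ ?_
  · rintro ⟨S, q⟩ h v
    obtain ⟨e⟩ := red_iso S q h
    obtain ⟨u, hu⟩ := noIso S q h (e v)
    refine ⟨e.symm u, ?_⟩
    have := e.symm.map_adj_iff.2 hu
    rwa [RelIso.symm_apply_apply] at this
  · rintro ⟨S, q⟩ h
    exact red_iff S q h

end Q229.TDS
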